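import Pool.Agent.TH707.SP.Main

/-!
# The size of the set of the oracles with sparse complete sets for `NP`

Let `Y` be the set of the oracles `A` such that some sparse set (in `NP` or not) is hard for `NP`
under Cook reductions relative to `A`, and let `X₀` be the set of the oracles `A` such that,
relative to `A`, `P ≠ ZPP` (so `P ≠ NP`), but some tally set in `ZPP` is complete for `NP` under Cook
reductions, and hard for `EXP` and for `PSPACE`. For every gauge `f`, every set of oracles between
`X₀` and `Y` is a null set for `f` if and only if, for every `ε > 0`, `f N ≤ 2 ^ ((log N) ^ ε)` for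
infinitely many `N`. In particular, this holds for the set of the oracles relative to which there is
a sparse Cook-complete set.
-/

set_option autoImplicit false

namespace Pool.Agent.Results.MP_69a69c_lc.GaugeThreshold

open Pool.Agent.NPC Pool.Agent.H620R2.Gauge Pool.Agent.TH707.SP
open Filter

/-- The disjoint union of the oracles `Q` and `A`. -/
def join (Q A : Oracle) : Oracle
  | [] => false
  | false :: z => Q z
  | true :: z => A z

/-- The set `S` is sparse: it has at most `p n` elements of length at most `n`, for a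
polynomial `p`. -/
def Sparse (S : Oracle) : Prop :=
  ∃ p : Polynomial ℕ, ∀ n, {x : List Bool | S x = true ∧ x.length ≤ n}.ncard ≤ p.eval n

/-- The elements of `S` are strings of ones. -/
def Tally (S : Oracle) : Prop := ∀ x, S x = true → x = List.replicate x.length true

/-- The set `S` is hard for `NP` under Cook reductions relative to the oracle `A`. -/
def CookHard (A S : Oracle) : Prop := ∀ L, IsNP A L → IsP (join A S) L

/-- The set `S` is complete for `NP` under Cook reductions relative to the oracle `A`. -/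
def CookComplete (A S : Oracle) : Prop := IsNP A {x | S x = true} ∧ CookHard A S

/-- Relative to `A`, `P ≠ ZPP`, but a tally set in `ZPP` is Cook-complete for `NP`, and hard for
`EXP` and for `PSPACE`. -/
def TallyComplete (A : Oracle) : Prop :=
  (∃ L, IsZPP A L ∧ ¬ IsP A L) ∧ ∃ T, Tally T ∧ CookComplete A T ∧ IsZPP A {x | T x = true} ∧
    ∀ L, IsEXP A L ∨ IsPSPACE A L → IsP (join A T) L

theorem join_eq : TH680.OD.join = join := by
  funext Q A x
  rcases x with _ | ⟨b, z⟩
  · rfl
  · cases b <;> rfl

theorem sparse_of_tally {T : Oracle} (h1 : Tally T) : Sparse T := by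
  refine ⟨Polynomial.X + 1, fun n => ?_⟩
  have h3 : {x : List Bool | T x = true ∧ x.length ≤ n} ⊆
      ((Finset.range (n + 1)).image (fun m => List.replicate m true) : Finset (List Bool)) := by
    rintro x ⟨h3, h4⟩
    rw [Finset.mem_coe, Finset.mem_image]
    exact ⟨x.length, Finset.mem_range.2 (by omega), (h1 x h3).symm⟩
  refine (Set.ncard_le_ncard h3 (Finset.finite_toSet _)).trans ?_
  rw [Set.ncard_coe_finset]
  refine Finset.card_image_le.trans ?_
  simp

theorem advice_of_hard {A S : Oracle} (hS : Sparse S) (h : CookHard A S) :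
    ∀ L, IsNP A L → WithAdvice (IsNP A) Lᶜ := by
  obtain ⟨p, hp⟩ := hS
  by_contra hcon
  push Not at hcon
  refine no_sparse hcon hp fun L hL => ?_
  have h1 := h L hL
  rw [← join_eq] at h1
  exact isNP_compl_join h1

/-- **The gauge size of the set of the oracles with sparse complete sets.** -/
theorem result (f : ℕ → ℝ) :
    (∀ X : Set Oracle, {A : Oracle | TallyComplete A} ⊆ X →
        X ⊆ {A : Oracle | ∃ S, Sparse S ∧ CookHard A S} →
      (Null f X ↔ ∀ ε : ℝ, 0 < ε → ∃ᶠ N : ℕ in atTop, f N ≤ 2 ^ (Real.logb 2 N) ^ ε)) ∧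
    (Null f {A : Oracle | ∃ S, Sparse S ∧ CookComplete A S} ↔
      ∀ ε : ℝ, 0 < ε → ∃ᶠ N : ℕ in atTop, f N ≤ 2 ^ (Real.logb 2 N) ^ ε) := by
  have key : ∀ X : Set Oracle, {A : Oracle | TallyComplete A} ⊆ X →
        X ⊆ {A : Oracle | ∃ S, Sparse S ∧ CookHard A S} →
      (Null f X ↔ ∀ ε : ℝ, 0 < ε → ∃ᶠ N : ℕ in atTop, f N ≤ 2 ^ (Real.logb 2 N) ^ ε) := by
    intro X h1 h2
    constructor
    · intro hn
      by_contra hcon
      refine not_nullT (f := f) hcon X (fun A h3 h4 => h1 ?_) hn
      obtain ⟨T, h5, h6, h7⟩ := tally_zpp h3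
      rw [join_eq] at h7
      exact ⟨h4, T, h5, ⟨h6.isNP, fun L hL => h7 L (Or.inr hL.isPSPACE)⟩, h6, h7⟩
    · intro hf
      refine (W900.CH.null_coNP f hf).mono fun A hA => ?_
      obtain ⟨S, h3, h4⟩ := h2 hA
      exact advice_of_hard h3 h4
  refine ⟨key, key _ ?_ ?_⟩
  · rintro A ⟨-, T, h1, h2, -, -⟩
    exact ⟨T, sparse_of_tally h1, h2⟩
  · rintro A ⟨S, h1, h2⟩
    exact ⟨S, h1, h2.2⟩

end Pool.Agent.Results.MP_69a69c_lc.GaugeThreshold
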